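import Pool.Agent.helper61.CSW.W.SpecW
import Pool.Agent.helper74.MP.MD1

/-!
# Project csw: (MP_70a088_an, class S), row csw:RNA: the ring estimate at one point (helper16)
-/

set_option autoImplicit false

open Complex Metric Set Filter Topology MeasureTheory
open YPPS (fd fdd pre TT CV IsCyc rho Exact)
open MPS (BB)
open Pool.Agent.helper98.ILF (juliaSet fatouSet)

noncomputable section

open CSS (SE SV JJ)

namespace YW

/-- the integral of a radial function over a ring. -/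
theorem RNA_rad (b : ℂ) (g : ℝ → ℝ) {s t : ℝ} (hs : 0 < s) (hst : s ≤ t) :
    ∫ z in ball b t \ ball b s, g ‖z - b‖ = 2 * Real.pi * ∫ y in s..t, y * g y := by
  have hA := MPS.MD_ann_meas b s t
  set F : ℝ → ℝ := (Ico s t).indicator g with hF
  have hmem : ∀ z ∈ ball b t \ ball b s, s ≤ ‖z - b‖ ∧ ‖z - b‖ < t := by
    intro z hz
    rw [Set.mem_sdiff, mem_ball, mem_ball, dist_eq_norm, not_lt] at hz
    exact ⟨hz.2, hz.1⟩
  have h1 : ∫ z in ball b t \ ball b s, g ‖z - b‖ = ∫ z : ℂ, F ‖z - b‖ := by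
    rw [← integral_indicator hA]
    congr 1
    funext z
    by_cases hz : z ∈ ball b t \ ball b s
    · rw [indicator_of_mem hz, hF, indicator_of_mem (show ‖z - b‖ ∈ Ico s t from hmem z hz)]
    · rw [indicator_of_notMem hz, hF, indicator_of_notMem]
      intro h
      apply hz
      rw [Set.mem_sdiff, mem_ball, mem_ball, dist_eq_norm, not_lt]
      exact ⟨h.2, h.1⟩
  rw [h1, integral_sub_right_eq_self (fun z : ℂ => F ‖z‖) b, MPS.MD_polar]
  congr 1
  have h2 : ∀ y : ℝ, y * F y = (Ico s t).indicator (fun y => y * g y) y := by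
    intro y
    by_cases hy : y ∈ Ico s t
    · rw [hF, indicator_of_mem hy, indicator_of_mem hy]
    · rw [hF, indicator_of_notMem hy, indicator_of_notMem hy, mul_zero]
  simp_rw [h2]
  rw [setIntegral_indicator measurableSet_Ico]
  have h3 : Ioi (0 : ℝ) ∩ Ico s t = Ico s t :=
    inter_eq_self_of_subset_right fun y hy => lt_of_lt_of_le hs hy.1
  rw [h3, integral_Ico_eq_integral_Ioo, ← integral_Ioc_eq_integral_Ioo, ← intervalIntegral.integral_of_le hst]

/-- the ring estimates. -/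
theorem RNA_ring (q : ℂ → ℂ) (b : ℂ) (r₀ M : ℝ) (hM : 0 ≤ M) (hq : Measurable q)
    (hb : ∀ z : ℂ, z ≠ b → ‖z - b‖ < r₀ → ‖q z - 1 / (z - b) ^ 2‖ ≤ M / ‖z - b‖) {s t : ℝ} (hs : 0 < s) (hst : s ≤ t) (ht : t ≤ r₀) :
    IntegrableOn q (ball b t \ ball b s) ∧
    (∫ z in ball b t \ ball b s, ‖q z‖) ≤ 2 * Real.pi * Real.log (t / s) + 2 * Real.pi * M * t ∧
    2 * Real.pi * Real.log (t / s) - 2 * Real.pi * M * t ≤ ∫ z in ball b t \ ball b s, ‖q z‖ := by
  have hA := MPS.MD_ann_meas b s t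
  have hfin : volume (ball b t \ ball b s) ≠ ⊤ := ((measure_mono sdiff_subset).trans_lt measure_ball_lt_top).ne
  have hmem : ∀ z ∈ ball b t \ ball b s, s ≤ ‖z - b‖ ∧ ‖z - b‖ < t := by
    intro z hz
    rw [Set.mem_sdiff, mem_ball, mem_ball, dist_eq_norm, not_lt] at hz
    exact ⟨hz.2, hz.1⟩
  have hne : ∀ z ∈ ball b t \ ball b s, z ≠ b := by
    intro z hz h
    have h1 := (hmem z hz).1
    rw [h, sub_self, norm_zero] at h1
    linarith
  have hpt : ∀ z ∈ ball b t \ ball b s, ‖q z‖ ≤ 1 / ‖z - b‖ ^ 2 + M * (1 / ‖z - b‖) ∧ 1 / ‖z - b‖ ^ 2 - M * (1 / ‖z - b‖) ≤ ‖q z‖ := by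
    intro z hz
    have h1 := hb z (hne z hz) ((hmem z hz).2.trans_le ht)
    have h2 : ‖1 / (z - b) ^ 2‖ = 1 / ‖z - b‖ ^ 2 := by
      rw [norm_div, norm_one, norm_pow]
    have h3 : M / ‖z - b‖ = M * (1 / ‖z - b‖) := by ring
    rw [h3] at h1
    constructor
    · have h4 : ‖q z‖ ≤ ‖q z - 1 / (z - b) ^ 2‖ + ‖1 / (z - b) ^ 2‖ := by
        have := norm_add_le (q z - 1 / (z - b) ^ 2) (1 / (z - b) ^ 2)
        rwa [sub_add_cancel] at this
      rw [h2] at h4
      linarith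
    · have h4 : ‖1 / (z - b) ^ 2‖ ≤ ‖q z - 1 / (z - b) ^ 2‖ + ‖q z‖ := by
        have := norm_sub_le (q z) (q z - 1 / (z - b) ^ 2)
        rw [sub_sub_cancel] at this
        linarith
      rw [h2] at h4
      linarith
  have hbdd : ∀ (g : ℂ → ℝ), Measurable g → ∀ C : ℝ, (∀ z ∈ ball b t \ ball b s, ‖g z‖ ≤ C) → IntegrableOn g (ball b t \ ball b s) := by
    intro g hg C hC
    refine Measure.integrableOn_of_bounded (M := C) hfin hg.aestronglyMeasurable ?_
    rw [ae_restrict_iff' hA]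
    exact Eventually.of_forall hC
  have hi2 : IntegrableOn (fun z : ℂ => 1 / ‖z - b‖ ^ 2) (ball b t \ ball b s) := by
    refine hbdd _ (by fun_prop) (1 / s ^ 2) fun z hz => ?_
    obtain ⟨h1, h2⟩ := hmem z hz
    rw [Real.norm_of_nonneg (by positivity)]
    gcongr
  have hi1 : IntegrableOn (fun z : ℂ => 1 / ‖z - b‖) (ball b t \ ball b s) := by
    refine hbdd _ (by fun_prop) (1 / s) fun z hz => ?_
    obtain ⟨h1, h2⟩ := hmem z hz
    rw [Real.norm_of_nonneg (by positivity)]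
    gcongr
  have hqi : IntegrableOn q (ball b t \ ball b s) := by
    refine Measure.integrableOn_of_bounded (M := 1 / s ^ 2 + M * (1 / s)) hfin hq.aestronglyMeasurable ?_
    rw [ae_restrict_iff' hA]
    refine Eventually.of_forall fun z hz => ?_
    obtain ⟨h1, h2⟩ := hmem z hz
    refine (hpt z hz).1.trans ?_
    have h3 : 1 / ‖z - b‖ ^ 2 ≤ 1 / s ^ 2 := by gcongr
    have h4 : 1 / ‖z - b‖ ≤ 1 / s := by gcongr
    have h5 : M * (1 / ‖z - b‖) ≤ M * (1 / s) := mul_le_mul_of_nonneg_left h4 hM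
    linarith
  have ht0 : 0 < t := hs.trans_le hst
  have hI2 : ∫ z in ball b t \ ball b s, 1 / ‖z - b‖ ^ 2 = 2 * Real.pi * Real.log (t / s) := by
    rw [RNA_rad b (fun y => 1 / y ^ 2) hs hst]
    congr 1
    rw [← integral_one_div_of_pos hs ht0]
    refine intervalIntegral.integral_congr fun y hy => ?_
    rw [uIcc_of_le hst] at hy
    have : y ≠ 0 := (hs.trans_le hy.1).ne'
    field_simp
  have hI1 : ∫ z in ball b t \ ball b s, 1 / ‖z - b‖ = 2 * Real.pi * (t - s) := by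
    rw [RNA_rad b (fun y => 1 / y) hs hst]
    congr 1
    have h1 : ∫ y in s..t, y * (1 / y) = ∫ _y in s..t, (1 : ℝ) := by
      refine intervalIntegral.integral_congr fun y hy => ?_
      rw [uIcc_of_le hst] at hy
      have : y ≠ 0 := (hs.trans_le hy.1).ne'
      field_simp
    rw [h1]
    simp
  have hMs : 0 ≤ 2 * Real.pi * M * s := by positivity
  refine ⟨hqi, ?_, ?_⟩
  · calc (∫ z in ball b t \ ball b s, ‖q z‖) ≤ ∫ z in ball b t \ ball b s, (1 / ‖z - b‖ ^ 2 + M * (1 / ‖z - b‖)) :=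
          setIntegral_mono_on hqi.norm (hi2.add (hi1.const_mul M)) hA fun z hz => (hpt z hz).1
      _ = 2 * Real.pi * Real.log (t / s) + M * (2 * Real.pi * (t - s)) := by
          rw [integral_add hi2 (hi1.const_mul M), integral_const_mul, hI2, hI1]
      _ ≤ 2 * Real.pi * Real.log (t / s) + 2 * Real.pi * M * t := by linarith
  · calc 2 * Real.pi * Real.log (t / s) - 2 * Real.pi * M * t ≤ 2 * Real.pi * Real.log (t / s) - M * (2 * Real.pi * (t - s)) := by linarith
      _ = ∫ z in ball b t \ ball b s, (1 / ‖z - b‖ ^ 2 - M * (1 / ‖z - b‖)) := by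
          rw [integral_sub hi2 (hi1.const_mul M), integral_const_mul, hI2, hI1]
      _ ≤ ∫ z in ball b t \ ball b s, ‖q z‖ :=
          setIntegral_mono_on (hi2.sub (hi1.const_mul M)) hqi.norm hA fun z hz => (hpt z hz).2

theorem RNA_lg {η : ℝ} (h0 : 0 < η) (h1 : η ≤ 1 / 2) : Real.log ((1 + η) / (1 - η)) ≤ 4 * η := by
  have h2 : 0 < 1 - η := by linarith
  have h3 : 0 < (1 + η) / (1 - η) := by positivity
  refine (Real.log_le_sub_one_of_pos h3).trans ?_
  rw [div_sub_one h2.ne', div_le_iff₀ h2]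
  nlinarith

theorem RNA_max {s s' η : ℝ} (hs : 0 < s) (hs' : 0 < s') (h0 : 0 < η) (h1 : η ≤ 1 / 2) :
    Real.log (max s (s' / (1 - η)) / min s (s' / (1 + η))) ≤ |Real.log (s' / s)| + Real.log ((1 + η) / (1 - η)) := by
  have h2 : 0 < 1 - η := by linarith
  have h3 : 0 < 1 + η := by linarith
  have hl1 : Real.log (1 - η) ≤ 0 := Real.log_nonpos h2.le (by linarith)
  have hl2 : 0 ≤ Real.log (1 + η) := Real.log_nonneg (by linarith)
  have hmx : 0 < max s (s' / (1 - η)) := lt_max_of_lt_left hs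
  have hmn : 0 < min s (s' / (1 + η)) := lt_min hs (by positivity)
  rw [Real.log_div hmx.ne' hmn.ne', Real.log_div h3.ne' h2.ne', Real.log_div hs'.ne' hs.ne']
  have ha1 : Real.log s' - Real.log s ≤ |Real.log s' - Real.log s| := le_abs_self _
  have ha2 : -(Real.log s' - Real.log s) ≤ |Real.log s' - Real.log s| := neg_le_abs _
  have ha3 : 0 ≤ |Real.log s' - Real.log s| := abs_nonneg _
  have e1 : Real.log (s' / (1 - η)) = Real.log s' - Real.log (1 - η) := Real.log_div hs'.ne' h2.ne'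
  have e2 : Real.log (s' / (1 + η)) = Real.log s' - Real.log (1 + η) := Real.log_div hs'.ne' h3.ne'
  rcases max_choice s (s' / (1 - η)) with hm | hm <;> rcases min_choice s (s' / (1 + η)) with hn | hn <;> rw [hm, hn] <;> (try simp only [e1, e2]) <;> linarith

theorem RNA : RNA_stmt := by
  intro F q b r₀ M hr₀ hM hF ha0 hq hb κ κ' τ hκ hκ' hτ
  obtain ⟨a, had⟩ : ∃ a, a = ‖deriv F b‖ := ⟨_, rfl⟩
  have ha : 0 < a := by
    rw [had]
    exact norm_pos_iff.2 ha0
  rw [← had]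
  obtain ⟨η, hη⟩ : ∃ η, η = min (1 / 2) (τ / (24 * Real.pi)) := ⟨_, rfl⟩
  have hη0 : 0 < η := by
    rw [hη]
    have := Real.pi_pos
    positivity
  have hη1 : η ≤ 1 / 2 := by
    rw [hη]
    exact min_le_left _ _
  have hη2 : 8 * Real.pi * η ≤ τ / 3 := by
    have h1 : η ≤ τ / (24 * Real.pi) := by
      rw [hη]
      exact min_le_right _ _
    have h2 : 8 * Real.pi * η ≤ 8 * Real.pi * (τ / (24 * Real.pi)) := mul_le_mul_of_nonneg_left h1 (by positivity)
    refine h2.trans (le_of_eq ?_)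
    field_simp
    norm_num
  have hlg := RNA_lg hη0 hη1
  have h1η : 0 < 1 - η := by linarith
  have h2η : 0 < 1 + η := by linarith
  -- the radius
  have hbm : b ∈ ball b r₀ := mem_ball_self hr₀
  have hder : HasDerivAt F (deriv F b) b := (hF.differentiableAt (isOpen_ball.mem_nhds hbm)).hasDerivAt
  have hev : ∀ᶠ z in 𝓝 b, ‖F z - F b - (z - b) * deriv F b‖ ≤ η * a * ‖z - b‖ := by
    have h1 := hder.isLittleO
    have h2 := h1.bound (show 0 < η * a by positivity)
    filter_upwards [h2] with z hz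
    simpa [smul_eq_mul] using hz
  obtain ⟨δ, hδ, hδ2⟩ := Metric.eventually_nhds_iff_ball.mp hev
  obtain ⟨r, hrd⟩ : ∃ r, r = min r₀ δ := ⟨_, rfl⟩
  have hr : 0 < r := by
    rw [hrd]
    exact lt_min hr₀ hδ
  have hrr : r ≤ r₀ := by
    rw [hrd]
    exact min_le_left _ _
  have hrδ : r ≤ δ := by
    rw [hrd]
    exact min_le_right _ _
  have hbd : ∀ z : ℂ, ‖z - b‖ < r → (1 - η) * a * ‖z - b‖ ≤ ‖F z - F b‖ ∧ ‖F z - F b‖ ≤ (1 + η) * a * ‖z - b‖ := by
    intro z hz
    have h1 := hδ2 z (by rw [mem_ball, dist_eq_norm]; linarith)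
    have h2 : ‖(z - b) * deriv F b‖ = a * ‖z - b‖ := by
      rw [norm_mul, had, mul_comm]
    constructor
    · have h3 : ‖(z - b) * deriv F b‖ ≤ ‖F z - F b - (z - b) * deriv F b‖ + ‖F z - F b‖ := by
        have := norm_sub_le (F z - F b) (F z - F b - (z - b) * deriv F b)
        rw [sub_sub_cancel] at this
        linarith
      rw [h2] at h3
      nlinarith
    · have h3 : ‖F z - F b‖ ≤ ‖F z - F b - (z - b) * deriv F b‖ + ‖(z - b) * deriv F b‖ := by
        have := norm_add_le (F z - F b - (z - b) * deriv F b) ((z - b) * deriv F b)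
        rwa [sub_add_cancel] at this
      rw [h2] at h3
      nlinarith
  obtain ⟨Kc, hKc⟩ : ∃ Kc, Kc = κ + 2 * κ' / a := ⟨_, rfl⟩
  have hKc0 : 0 < Kc := by
    rw [hKc]
    positivity
  refine ⟨r, hr, hrr, min (r / Kc) (τ / (6 * Real.pi * (M + 1) * Kc)), ?_, ?_⟩
  · have := Real.pi_pos
    positivity
  intro ε hε hεlt
  have hε1 : ε * Kc ≤ r := by
    have h1 : ε ≤ r / Kc := hεlt.le.trans (min_le_left _ _)
    rwa [le_div_iff₀ hKc0] at h1
  have hε2 : 2 * Real.pi * M * (ε * Kc) ≤ τ / 3 := by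
    have h1 : ε ≤ τ / (6 * Real.pi * (M + 1) * Kc) := hεlt.le.trans (min_le_right _ _)
    have hp := Real.pi_pos
    rw [le_div_iff₀ (by positivity)] at h1
    have h2 : 0 ≤ 2 * Real.pi * (ε * Kc) := by positivity
    nlinarith
  obtain ⟨s, hs⟩ : ∃ s, s = ε * κ := ⟨_, rfl⟩
  obtain ⟨s', hs'⟩ : ∃ s', s' = ε * κ' / a := ⟨_, rfl⟩
  have hs0 : 0 < s := by
    rw [hs]
    positivity
  have hs'0 : 0 < s' := by
    rw [hs']
    positivity
  have has' : a * s' = ε * κ' := by
    rw [hs']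
    field_simp
  rw [← hs, ← has']
  have hsK : s ≤ ε * Kc := by
    rw [hs, hKc]
    have : 0 ≤ 2 * κ' / a := by positivity
    nlinarith
  have hs'K : 2 * s' ≤ ε * Kc := by
    rw [hs', hKc]
    have h1 : ε * (κ + 2 * κ' / a) = ε * κ + 2 * (ε * κ' / a) := by ring
    rw [h1]
    have : 0 ≤ ε * κ := by positivity
    linarith
  have hs'1 : s' / (1 - η) ≤ 2 * s' := by
    rw [div_le_iff₀ h1η]
    nlinarith
  have hs'2 : s' / (1 + η) ≤ s' := by
    rw [div_le_iff₀ h2η]
    nlinarith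
  have hP1 : ∀ z : ℂ, ‖z - b‖ < r → a * s' ≤ ‖F z - F b‖ → s' / (1 + η) ≤ ‖z - b‖ := by
    intro z hz h1
    have h2 := (hbd z hz).2
    rw [div_le_iff₀ h2η]
    have h3 : a * s' ≤ a * (‖z - b‖ * (1 + η)) := by nlinarith
    exact le_of_mul_le_mul_left h3 ha
  have hP2 : ∀ z : ℂ, ‖z - b‖ < r → ‖F z - F b‖ < a * s' → ‖z - b‖ < s' / (1 - η) := by
    intro z hz h1
    have h2 := (hbd z hz).1
    rw [lt_div_iff₀ h1η]
    have h3 : a * (‖z - b‖ * (1 - η)) < a * s' := by nlinarith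
    exact lt_of_mul_lt_mul_left h3 ha.le
  obtain ⟨α, hα⟩ : ∃ α, α = min s (s' / (1 + η)) := ⟨_, rfl⟩
  obtain ⟨β, hβ⟩ : ∃ β, β = max s (s' / (1 - η)) := ⟨_, rfl⟩
  have hα0 : 0 < α := by
    rw [hα]
    exact lt_min hs0 (by positivity)
  have hαs : α ≤ s := by
    rw [hα]
    exact min_le_left _ _
  have hαs' : α ≤ s' / (1 + η) := by
    rw [hα]
    exact min_le_right _ _
  have hβs : s ≤ β := by
    rw [hβ]
    exact le_max_left _ _
  have hβs' : s' / (1 - η) ≤ β := by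
    rw [hβ]
    exact le_max_right _ _
  have hβK : β ≤ ε * Kc := by
    rw [hβ]
    exact max_le hsK (hs'1.trans hs'K)
  have hβr : β ≤ r := hβK.trans hε1
  have hringm : ∀ (x y : ℝ) (z : ℂ), z ∈ ball b y \ ball b x ↔ x ≤ ‖z - b‖ ∧ ‖z - b‖ < y := by
    intro x y z
    rw [Set.mem_sdiff, mem_ball, mem_ball, dist_eq_norm, not_lt]
    exact ⟨fun h => ⟨h.2, h.1⟩, fun h => ⟨h.2, h.1⟩⟩
  obtain ⟨hi, hup, -⟩ := RNA_ring q b r₀ M hM hq hb hα0 (hαs.trans hβs) (hβr.trans hrr)
  obtain ⟨hir, -, -⟩ := RNA_ring q b r₀ M hM hq hb hα0 ((hαs.trans hβs).trans hβr) hrr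
  have hnn : ∀ S : Set ℂ, 0 ≤ᵐ[volume.restrict S] fun z => ‖q z‖ := fun S => Eventually.of_forall fun z => norm_nonneg _
  have hsplit : ∀ x y w : ℝ, 0 < x → x ≤ y → y ≤ w → w ≤ r₀ → (∫ z in ball b w \ ball b x, ‖q z‖) = (∫ z in ball b y \ ball b x, ‖q z‖) + ∫ z in ball b w \ ball b y, ‖q z‖ := by
    intro x y w hx hxy hyw hw
    have hi1 := (RNA_ring q b r₀ M hM hq hb hx hxy (hyw.trans hw)).1.norm
    have hi2 := (RNA_ring q b r₀ M hM hq hb (hx.trans_le hxy) hyw hw).1.norm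
    rw [← setIntegral_union ?_ (MPS.MD_ann_meas b y w) hi1 hi2]
    · congr 2
      ext z
      rw [mem_union, hringm, hringm, hringm]
      constructor
      · rintro ⟨h1, h2⟩
        rcases lt_or_ge ‖z - b‖ y with h3 | h3
        · exact Or.inl ⟨h1, h3⟩
        · exact Or.inr ⟨h3, h2⟩
      · rintro (⟨h1, h2⟩ | ⟨h1, h2⟩)
        · exact ⟨h1, h2.trans_le hyw⟩
        · exact ⟨hxy.trans h1, h2⟩
    · rw [Set.disjoint_left]
      intro z h1 h2
      rw [hringm] at h1 h2
      linarith [h1.2, h2.1]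
  refine ⟨?_, ?_, ?_⟩
  · -- the symmetric difference
    have hsub : {z : ℂ | ‖z - b‖ < r ∧ ¬ (s ≤ ‖z - b‖ ↔ a * s' ≤ ‖F z - F b‖)} ⊆ ball b β \ ball b α := by
      rintro z ⟨hz, hz2⟩
      rw [hringm]
      by_cases h1 : s ≤ ‖z - b‖
      · have h2 : ‖F z - F b‖ < a * s' := by
          by_contra h3
          push Not at h3
          exact hz2 ⟨fun _ => h3, fun _ => h1⟩
        exact ⟨hαs.trans h1, (hP2 z hz h2).trans_le hβs'⟩
      · have h2 : a * s' ≤ ‖F z - F b‖ := by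
          by_contra h3
          exact hz2 ⟨fun h => absurd h h1, fun h => absurd h h3⟩
        push Not at h1
        exact ⟨hαs'.trans (hP1 z hz h2), h1.trans_le hβs⟩
    refine (setIntegral_mono_set hi.norm (hnn _) (HasSubset.Subset.eventuallyLE hsub)).trans (hup.trans ?_)
    have h1 := RNA_max hs0 hs'0 hη0 hη1
    rw [← hα, ← hβ] at h1
    have h2 : s' / s = κ' / (a * κ) := by
      rw [hs, hs']
      field_simp
    rw [h2] at h1
    have hp := Real.pi_pos
    have h3 : 2 * Real.pi * Real.log (β / α) ≤ 2 * Real.pi * (|Real.log (κ' / (a * κ))| + 4 * η) :=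
      mul_le_mul_of_nonneg_left (by linarith) (by positivity)
    have h4 : 2 * Real.pi * M * β ≤ τ / 3 := by
      have : 2 * Real.pi * M * β ≤ 2 * Real.pi * M * (ε * Kc) := mul_le_mul_of_nonneg_left hβK (by positivity)
      linarith
    have h5 : 2 * Real.pi * (|Real.log (κ' / (a * κ))| + 4 * η) = 2 * Real.pi * |Real.log (κ' / (a * κ))| + 8 * Real.pi * η := by ring
    linarith
  · refine hir.mono_set ?_
    rintro z ⟨hz, hz2⟩
    rw [hringm]
    rcases hz2 with h | h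
    · exact ⟨hαs.trans h, hz⟩
    · exact ⟨hαs'.trans (hP1 z hz h), hz⟩
  · -- the signed estimate
    have hA : {z : ℂ | ‖z - b‖ < r ∧ s ≤ ‖z - b‖} = ball b r \ ball b s := by
      ext z
      rw [hringm]
      exact ⟨fun h => ⟨h.2, h.1⟩, fun h => ⟨h.2, h.1⟩⟩
    have hsub : {z : ℂ | ‖z - b‖ < r ∧ a * s' ≤ ‖F z - F b‖} ⊆ ball b r \ ball b (s' / (1 + η)) := by
      rintro z ⟨hz, hz2⟩
      rw [hringm]
      exact ⟨hP1 z hz hz2, hz⟩
    rw [hA]
    have hsp : 0 < s' / (1 + η) := by positivity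
    have hspr : s' / (1 + η) ≤ r := by linarith
    have hsr : s ≤ r := hsK.trans hε1
    have hB := (RNA_ring q b r₀ M hM hq hb hsp hspr hrr).1.norm
    have h0 : (∫ z in {z : ℂ | ‖z - b‖ < r ∧ a * s' ≤ ‖F z - F b‖}, ‖q z‖) ≤ ∫ z in ball b r \ ball b (s' / (1 + η)), ‖q z‖ :=
      setIntegral_mono_set hB (hnn _) (HasSubset.Subset.eventuallyLE hsub)
    have hp := Real.pi_pos
    have hlog : Real.log (1 + η) ≤ 4 * η := by
      have h1 := Real.log_le_sub_one_of_pos h2η
      linarith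
    have e1 : a * κ / κ' = s / s' := by
      rw [hs, hs']
      field_simp
    rw [e1, Real.log_div hs0.ne' hs'0.ne']
    rcases le_total (s' / (1 + η)) s with hc | hc
    · rw [hsplit _ _ _ hsp hc hsr hrr] at h0
      have h1 := (RNA_ring q b r₀ M hM hq hb hsp hc (hsr.trans hrr)).2.1
      have e2 : Real.log (s / (s' / (1 + η))) = Real.log s - Real.log s' + Real.log (1 + η) := by
        rw [Real.log_div hs0.ne' hsp.ne', Real.log_div hs'0.ne' h2η.ne']
        ring
      rw [e2] at h1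
      have h2 : 2 * Real.pi * M * s ≤ 2 * Real.pi * M * (ε * Kc) := mul_le_mul_of_nonneg_left hsK (by positivity)
      have h3 : 2 * Real.pi * Real.log (1 + η) ≤ 2 * Real.pi * (4 * η) := mul_le_mul_of_nonneg_left hlog (by positivity)
      have h4 : 2 * Real.pi * (Real.log s - Real.log s' + Real.log (1 + η)) = 2 * Real.pi * (Real.log s - Real.log s') + 2 * Real.pi * Real.log (1 + η) := by ring
      have h5 : 2 * Real.pi * (4 * η) = 8 * Real.pi * η := by ring
      linarith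
    · have h1 := hsplit _ _ _ hs0 hc hspr hrr
      have h2 := (RNA_ring q b r₀ M hM hq hb hs0 hc (hspr.trans hrr)).2.2
      have e2 : Real.log (s' / (1 + η) / s) = -(Real.log s - Real.log s') - Real.log (1 + η) := by
        rw [Real.log_div hsp.ne' hs0.ne', Real.log_div hs'0.ne' h2η.ne']
        ring
      rw [e2] at h2
      have h3 : 2 * Real.pi * M * (s' / (1 + η)) ≤ 2 * Real.pi * M * (ε * Kc) := mul_le_mul_of_nonneg_left (by linarith) (by positivity)
      have h4 : 2 * Real.pi * Real.log (1 + η) ≤ 2 * Real.pi * (4 * η) := mul_le_mul_of_nonneg_left hlog (by positivity)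
      have h5 : 2 * Real.pi * (-(Real.log s - Real.log s') - Real.log (1 + η)) = -(2 * Real.pi * (Real.log s - Real.log s')) - 2 * Real.pi * Real.log (1 + η) := by ring
      have h6 : 2 * Real.pi * (4 * η) = 8 * Real.pi * η := by ring
      linarith

end YW
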